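import Pool.Agent.H261R3.LH.Stmts

/-! Task StageAB of project LH (MP_e25190_gt), by helper744. -/

set_option autoImplicit false

namespace Pool.Agent.H744R3.LH
open Pool.Agent.H261R3.LH

section
variable {S : Type} [MetricSpace S]

theorem clip_le_one (x : ℝ) : clip x ≤ 1 := max_le zero_le_one (min_le_left _ _)

theorem clip_of_mem {x : ℝ} (h0 : 0 ≤ x) (h1 : x ≤ 1) : clip x = x := by
  unfold clip; rw [min_eq_right h1, max_eq_right h0]

theorem abs_clip_sub (x y : ℝ) : |clip x - clip y| ≤ |x - y| := by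
  unfold clip
  rcases le_total 1 x with h1 | h1 <;> rcases le_total 1 y with h2 | h2 <;>
    rcases le_total 0 x with h3 | h3 <;> rcases le_total 0 y with h4 | h4 <;>
    simp only [min_eq_left, min_eq_right, h1, h2, h3, h4, max_eq_left, max_eq_right, zero_le_one] <;>
    rw [abs_le] <;> constructor <;>
    linarith [le_abs_self (x - y), neg_abs_le (x - y)]

theorem lip_mono {L L' : ℝ} {f : ℝ → S} (hf : Lip1 L f) (h : L ≤ L') : Lip1 L' f := fun x y =>
  (hf x y).trans (mul_le_mul_of_nonneg_right h (abs_nonneg _))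

theorem lip_nonneg {L : ℝ} {f : ℝ → S} (hf : Lip1 L f) : 0 ≤ L := by
  have := hf 0 1
  have h2 := dist_nonneg (x := f 0) (y := f 1)
  simp at this
  linarith

theorem lip_of_le {L : ℝ} {f : ℝ → S}
    (h : ∀ x y, x ≤ y → dist (f x) (f y) ≤ L * (y - x)) : Lip1 L f := by
  intro x y
  rcases le_total x y with hxy | hxy
  · rw [abs_sub_comm, abs_of_nonneg (sub_nonneg.2 hxy)]; exact h x y hxy
  · rw [abs_of_nonneg (sub_nonneg.2 hxy), dist_comm]; exact h y x hxy

theorem lip_le {L : ℝ} {f : ℝ → S} (hf : Lip1 L f) {x y : ℝ} (hxy : x ≤ y) :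
    dist (f x) (f y) ≤ L * (y - x) := by
  have := hf x y
  rwa [abs_sub_comm, abs_of_nonneg (sub_nonneg.2 hxy)] at this

theorem lip_glue {L a : ℝ} {f g : ℝ → S} (hf : Lip1 L f) (hg : Lip1 L g) (h : f a = g a) :
    Lip1 L (fun u => if u ≤ a then f u else g u) := by
  refine lip_of_le fun x y hxy => ?_
  by_cases hx : x ≤ a
  · by_cases hy : y ≤ a
    · simp only [hx, hy, if_true]; exact lip_le hf hxy
    · simp only [hx, hy, if_true, if_false]
      calc dist (f x) (g y) ≤ dist (f x) (f a) + dist (f a) (g y) := dist_triangle _ _ _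
        _ ≤ L * (a - x) + L * (y - a) := by
          rw [h]
          refine add_le_add ?_ (lip_le hg (not_le.1 hy).le)
          rw [← h]; exact lip_le hf hx
        _ = L * (y - x) := by ring
  · have hy : ¬ y ≤ a := fun hy => hx (hxy.trans hy)
    simp only [hx, hy, if_false]; exact lip_le hg hxy

/-- Lipschitz on the integer intervals implies Lipschitz. -/
theorem lip_of_cells {L : ℝ} {f : ℝ → S}
    (h : ∀ (k : ℤ) (x y : ℝ), (k : ℝ) ≤ x → x ≤ y → y ≤ k + 1 → dist (f x) (f y) ≤ L * (y - x)) :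
    Lip1 L f := by
  have key : ∀ (n : ℕ) (k : ℤ) (x y : ℝ), (k : ℝ) ≤ x → x ≤ k + 1 → x ≤ y → y ≤ k + 1 + n →
      dist (f x) (f y) ≤ L * (y - x) := by
    intro n
    induction n with
    | zero => intro k x y hx hx1 hxy hy; exact h k x y hx hxy (by simpa using hy)
    | succ n ih =>
      intro k x y hx hx1 hxy hy
      by_cases hyk : y ≤ k + 1
      · exact h k x y hx hxy hyk
      · have hyk' := (not_le.1 hyk).le
        have h1 := h k x (k + 1) hx hx1 le_rfl
        have h2 := ih (k + 1) ((k : ℝ) + 1) y (by push_cast; exact le_rfl)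
          (by push_cast; linarith) hyk' (by push_cast at hy ⊢; linarith)
        calc dist (f x) (f y) ≤ dist (f x) (f (k + 1)) + dist (f (k + 1)) (f y) :=
              dist_triangle _ _ _
          _ ≤ L * ((k + 1) - x) + L * (y - (k + 1)) := add_le_add h1 h2
          _ = L * (y - x) := by ring
  refine lip_of_le fun x y hxy => ?_
  obtain ⟨n, hn⟩ := exists_nat_ge (y - x)
  exact key n ⌊x⌋ x y (Int.floor_le x) (Int.lt_floor_add_one x).le hxy
    (by linarith [Int.lt_floor_add_one x])

/-- the line functions -/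
noncomputable def line (G : ℤ → ℤ → ℝ → ℝ → S) (j : ℤ) (v : ℝ) : S := G j ⌊v⌋ (Int.fract v) 0

theorem line_eq {C : ℝ} {G : ℤ → ℤ → ℝ → ℝ → S} (hG : Good C G) (j k : ℤ) {s : ℝ}
    (h0 : 0 ≤ s) (h1 : s ≤ 1) : line G j (k + s) = G j k s 0 := by
  rcases lt_or_eq_of_le h1 with h | h
  · have hf : ⌊(k : ℝ) + s⌋ = k := by
      rw [Int.floor_intCast_add, Int.floor_eq_zero_iff.2 ⟨h0, h⟩, add_zero]
    unfold line Int.fract
    rw [hf]; congr 1; ring
  · subst h
    have hf : ⌊(k : ℝ) + 1⌋ = k + 1 := by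
      rw [Int.floor_intCast_add, Int.floor_one]
    unfold line Int.fract
    rw [hf, hG.lr j k 0]; congr 1; push_cast; ring

theorem line_lip {C : ℝ} {G : ℤ → ℤ → ℝ → ℝ → S} (hG : Good C G) (j : ℤ) :
    Lip1 C (line G j) := by
  refine lip_of_cells fun k x y hx hxy hy => ?_
  have e1 := line_eq hG j k (s := x - k) (by linarith) (by linarith)
  have e2 := line_eq hG j k (s := y - k) (by linarith) (by linarith)
  rw [add_sub_cancel] at e1 e2
  rw [e1, e2]
  have := lip_le (hG.ls j k 0) (x := x - k) (y := y - k) (by linarith)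
  simpa using this

theorem line_top {C : ℝ} {G : ℤ → ℤ → ℝ → ℝ → S} (hG : Good C G) (j k : ℤ) {s : ℝ}
    (h0 : 0 ≤ s) (h1 : s ≤ 1) : line G (j + 1) ((k + s) / 2) = G j k s 1 := by
  rcases Int.even_or_odd' k with ⟨m, hm | hm⟩
  · subst hm
    rw [hG.tl j m s h0 h1, ← line_eq hG (j + 1) m (s := s / 2) (by linarith) (by linarith)]
    congr 1; push_cast; ring
  · subst hm
    rw [hG.tr j m s h0 h1, ← line_eq hG (j + 1) m (s := (1 + s) / 2) (by linarith) (by linarith)]
    congr 1; push_cast; ring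

/-- the extension of a vertical segment -/
noncomputable def ev (g g' F : ℝ → S) (u : ℝ) : S :=
  if u ≤ 0 then g (-u) else if u ≤ 1 then F u else g' (u - 1)

theorem ev_lip {L : ℝ} {g g' F : ℝ → S} (hg : Lip1 L g) (hg' : Lip1 L g') (hF : Lip1 L F)
    (h0 : g 0 = F 0) (h1 : F 1 = g' 0) : Lip1 L (ev g g' F) := by
  have a1 : Lip1 L (fun u => g (-u)) := fun x y => by
    have := hg (-x) (-y)
    have e : |-x - -y| = |x - y| := by rw [← abs_neg]; congr 1; ring
    rwa [e] at this
  have a2 : Lip1 L (fun u => g' (u - 1)) := fun x y => by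
    have := hg' (x - 1) (y - 1)
    have e : |x - 1 - (y - 1)| = |x - y| := by congr 1; ring
    rwa [e] at this
  have a3 := lip_glue (a := 1) hF a2 (by simp [h1])
  exact lip_glue (a := 0) a1 a3 (by simp [h0])

omit [MetricSpace S] in
theorem ev_neg (g g' F : ℝ → S) {u : ℝ} (hu : u ≤ 0) : ev g g' F u = g (-u) := if_pos hu

omit [MetricSpace S] in
theorem ev_mid {g g' F : ℝ → S} (h0 : g 0 = F 0) {u : ℝ} (hu : 0 ≤ u) (hu1 : u ≤ 1) :
    ev g g' F u = F u := by
  rcases lt_or_eq_of_le hu with h | h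
  · unfold ev; rw [if_neg (not_le.2 h), if_pos hu1]
  · subst h; rw [ev_neg _ _ _ le_rfl, neg_zero, h0]

theorem ev_pos {g g' F : ℝ → S} (h0 : g 0 = F 0) (h1 : F 1 = g' 0) {u : ℝ} (hu : 1 ≤ u) :
    ev g g' F u = g' (u - 1) := by
  rcases lt_or_eq_of_le hu with h | h
  · unfold ev; rw [if_neg (by linarith), if_neg (not_le.2 h)]
  · subst h; rw [ev_mid h0 zero_le_one le_rfl, h1, sub_self]

end

theorem taskStageAB : TaskStageAB := by
  intro hTL S _ _ _ hS p C
  obtain ⟨C0, hC0, hline⟩ := hTL S hS p C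
  refine ⟨3 * max C C0, by positivity, fun G hG => ?_⟩
  have hC : 0 ≤ C := lip_nonneg (hG.ls 0 0 0)
  set L := max C C0 with hL
  have hLC : C ≤ L := le_max_left _ _
  have hLC0 : C0 ≤ L := le_max_right _ _
  have hL0 : 0 ≤ L := hC.trans hLC
  choose g hg1 hg2 hg3 hg4 using fun j => hline (line G j) (line_lip hG j)
  -- the homotopy
  let e : ℤ → ℤ → ℝ → ℝ → S := fun j k s u =>
    ev (g j (k + clip s)) (g (j + 1) ((k + clip s) / 2)) (G j k (clip s)) u
  have e0 : ∀ (j k : ℤ) (s : ℝ), g j (k + clip s) 0 = G j k (clip s) 0 := fun j k s => by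
    rw [hg3, line_eq hG j k (clip_nonneg s) (clip_le_one s)]
  have e1 : ∀ (j k : ℤ) (s : ℝ), G j k (clip s) 1 = g (j + 1) ((k + clip s) / 2) 0 := fun j k s => by
    rw [hg3, line_top hG j k (clip_nonneg s) (clip_le_one s)]
  have eu : ∀ j k s, Lip1 L (e j k s) := fun j k s =>
    ev_lip (lip_mono (hg2 _ _) hLC0) (lip_mono (hg2 _ _) hLC0) (lip_mono (hG.lh _ _ _) hLC)
      (e0 j k s) (e1 j k s)
  have es : ∀ j k u, Lip1 L (fun s => e j k s u) := by
    intro j k u x y
    have hxy := abs_clip_sub x y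
    show dist (ev _ _ _ u) (ev _ _ _ u) ≤ _
    by_cases h0 : u ≤ 0
    · rw [ev_neg _ _ _ h0, ev_neg _ _ _ h0]
      have := hg1 j (-u) (k + clip x) (k + clip y)
      have e : |(k : ℝ) + clip x - (k + clip y)| = |clip x - clip y| := by congr 1; ring
      rw [e] at this
      calc _ ≤ _ := this
        _ ≤ L * |x - y| := mul_le_mul hLC0 hxy (abs_nonneg _) hL0
    · have h0' := (not_le.1 h0).le
      by_cases h1 : u ≤ 1
      · rw [ev_mid (e0 j k x) h0' h1, ev_mid (e0 j k y) h0' h1]
        have := hG.ls j k u (clip x) (clip y)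
        calc _ ≤ _ := this
          _ ≤ L * |x - y| := mul_le_mul hLC hxy (abs_nonneg _) hL0
      · have h1' := (not_le.1 h1).le
        rw [ev_pos (e0 j k x) (e1 j k x) h1', ev_pos (e0 j k y) (e1 j k y) h1']
        have := hg1 (j + 1) (u - 1) ((k + clip x) / 2) ((k + clip y) / 2)
        have e : |((k : ℝ) + clip x) / 2 - (k + clip y) / 2| = |clip x - clip y| / 2 := by
          rw [show ((k : ℝ) + clip x) / 2 - (k + clip y) / 2 = (clip x - clip y) / 2 by ring,
            abs_div, abs_two]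
        rw [e] at this
        calc _ ≤ _ := this
          _ ≤ L * |x - y| := mul_le_mul hLC0
            (by linarith [abs_nonneg (clip x - clip y)]) (by positivity) hL0
  let H : ℝ → ℤ → ℤ → ℝ → ℝ → S := fun t j k s h =>
    e j k s ((1 + 2 * clip t) * clip h - clip t)
  have c0 : clip 0 = 0 := clip_of_mem le_rfl zero_le_one
  have c1 : clip 1 = 1 := clip_of_mem zero_le_one le_rfl
  have hgood : ∀ t, Good (3 * L) (H t) := by
    intro t
    have ht0 := clip_nonneg t
    have ht1 := clip_le_one t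
    refine ⟨fun j k h => ?_, fun j k s x y => ?_, fun j k h => ?_, fun j k s hs0 hs1 => ?_,
      fun j k s hs0 hs1 => ?_⟩
    · exact lip_mono (es j k _) (by linarith)
    · have := eu j k s ((1 + 2 * clip t) * clip x - clip t) ((1 + 2 * clip t) * clip y - clip t)
      have e : |(1 + 2 * clip t) * clip x - clip t - ((1 + 2 * clip t) * clip y - clip t)|
          = (1 + 2 * clip t) * |clip x - clip y| := by
        rw [show (1 + 2 * clip t) * clip x - clip t - ((1 + 2 * clip t) * clip y - clip t)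
          = (1 + 2 * clip t) * (clip x - clip y) by ring, abs_mul,
          abs_of_nonneg (by linarith : 0 ≤ 1 + 2 * clip t)]
      rw [e] at this
      calc _ ≤ _ := this
        _ ≤ L * (3 * |x - y|) := by
          refine mul_le_mul_of_nonneg_left ?_ hL0
          exact mul_le_mul (by linarith) (abs_clip_sub x y) (abs_nonneg _) (by norm_num)
        _ = 3 * L * |x - y| := by ring
    · show ev _ _ _ _ = ev _ _ _ _
      rw [c0, c1]
      have a1 : (k : ℝ) + 1 = ((k + 1 : ℤ) : ℝ) + 0 := by push_cast; ring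
      rw [a1]
      have a2 : G j k 1 = G j (k + 1) 0 := funext fun u => hG.lr j k u
      rw [a2]
    · show ev _ _ _ _ = ev _ _ _ _
      have cs : clip s = s := clip_of_mem hs0 hs1
      have cs2 : clip (s / 2) = s / 2 := clip_of_mem (by linarith) (by linarith)
      rw [c0, c1, ev_pos (e0 _ _ _) (e1 _ _ _) (by linarith), ev_neg _ _ _ (by linarith),
        cs, cs2]
      congr 1
      · push_cast; ring_nf
      · ring
    · show ev _ _ _ _ = ev _ _ _ _
      have cs : clip s = s := clip_of_mem hs0 hs1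
      have cs2 : clip ((1 + s) / 2) = (1 + s) / 2 := clip_of_mem (by linarith) (by linarith)
      rw [c0, c1, ev_pos (e0 _ _ _) (e1 _ _ _) (by linarith), ev_neg _ _ _ (by linarith),
        cs, cs2]
      congr 1
      · push_cast; ring_nf
      · ring
  refine ⟨H 1, ⟨H, hgood, fun j k s h x y => ?_, fun j k s h hs0 hs1 hh0 hh1 => ?_,
    fun j k s h _ _ _ _ => rfl⟩, hgood 1, fun j k s => ⟨?_, ?_⟩⟩
  · have := eu j k s ((1 + 2 * clip x) * clip h - clip x) ((1 + 2 * clip y) * clip h - clip y)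
    have hh0 := clip_nonneg h
    have hh1 := clip_le_one h
    have e : |(1 + 2 * clip x) * clip h - clip x - ((1 + 2 * clip y) * clip h - clip y)|
        = |2 * clip h - 1| * |clip x - clip y| := by
      rw [← abs_mul]; congr 1; ring
    rw [e] at this
    have h1 : |2 * clip h - 1| ≤ 3 := by rw [abs_le]; constructor <;> linarith
    calc _ ≤ _ := this
      _ ≤ L * (3 * |x - y|) := by
        refine mul_le_mul_of_nonneg_left ?_ hL0
        exact mul_le_mul h1 (abs_clip_sub x y) (abs_nonneg _) (by norm_num)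
      _ = 3 * L * |x - y| := by ring
  · show ev _ _ _ _ = _
    rw [c0, clip_of_mem hh0 hh1, clip_of_mem hs0 hs1]
    have e0' := e0 j k s
    rw [clip_of_mem hs0 hs1] at e0'
    rw [ev_mid e0' (by linarith) (by linarith)]
    congr 1; ring
  · show ev _ _ _ _ = _
    rw [c0, c1, ev_neg _ _ _ (by norm_num)]
    rw [show -((1 + 2 * 1) * 0 - 1 : ℝ) = 1 by norm_num]
    exact hg4 _ _
  · show ev _ _ _ _ = _
    rw [c1, ev_pos (e0 _ _ _) (e1 _ _ _) (by norm_num)]
    rw [show ((1 + 2 * 1) * 1 - 1 - 1 : ℝ) = 1 by norm_num]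
    exact hg4 _ _

end Pool.Agent.H744R3.LH
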